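import Pool.Agent.Q219.GWB.AssemblyC
import Pool.Agent.Q219.GWB.TaskBtRange
import Pool.Agent.Q219.GWB.TaskBtMono
import Pool.Agent.Q219.GWB.TaskBMono
import Pool.Agent.Q219.GWB.TaskInt
import Pool.Agent.Q219.GWB.TaskCritA
import Pool.Agent.Q219.GWB.TaskBern
import Pool.Agent.Q219.GWB.TaskMeas
import Pool.Agent.Q219.GWB.TaskMeasG
import Pool.Agent.Q219.GWB.TaskBranch
import Pool.Agent.Q219.GWB.TaskZip
import Pool.Agent.Q219.GWB.TaskBin
import Pool.Agent.Q219.GWB.TaskAll
import Pool.Agent.Q219.GWB.TaskRec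
import Pool.Agent.Q219.GWB.TaskHn
import Pool.Agent.Q219.GWB.TaskHdec
import Pool.Agent.Q219.GWB.TaskHinf
import Pool.Agent.Q219.GWB.TaskGpos
import Pool.Agent.Q219.GWB.TaskMany
import Pool.Agent.Q219.GWB.TaskFort
import Pool.Agent.Q219.GWB.TaskFortOf
import Pool.Agent.Q219.GWB.RayB
import Pool.Agent.Q219.GWB.TaskEngA
import Pool.Agent.Q219.GWB.TaskCoup
import Pool.Agent.Q219.GWB.TaskPc

/-!
# The minimal bootstrap critical probability of Galton–Watson trees with given mean

`f_r^{GW}(b) ≥ c e^{-b/(r-1)}` for all real `b ≥ r`, with `c = 1/(4e)` for all `r ≥ 2`: the factor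
`1/b` of the known lower bound can be removed. Together with the known upper bound this gives the
order `f_r^{GW}(b) = Θ_r(e^{-b/(r-1)})`.
-/

set_option autoImplicit false

namespace Pool.Agent.Results.MP_12274d_pr.LowerBoundOrder

open MeasureTheory Pool.Agent.Q219.GWB

theorem result :
    (∀ r : ℕ, 2 ≤ r → ∃ c : ℝ, 0 < c ∧ ∀ b : ℝ, (r : ℝ) ≤ b →
      ((c * Real.exp (-b / ((r : ℝ) - 1)) : ℝ) : EReal) ≤ fGW r b) ∧
    ∀ r : ℕ, 2 ≤ r → ∀ ν : Measure ℕ, IsProbabilityMeasure ν → ν {0} = 0 →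
      Integrable (fun k : ℕ => (k : ℝ)) ν → ∀ b : ℝ, ∫ k, (k : ℝ) ∂ν = b → (r : ℝ) ≤ b →
      ∀ᵐ ξ ∂(GW ν), 1 / (4 * Real.exp 1) * Real.exp (-b / ((r : ℝ) - 1)) ≤ pc ξ r := by
  have hBtRange : TaskBtRange := TBtRange.main
  have hBMono : TaskBMono := TBMono.main hBtRange TBtMono.main
  have hBern : TaskBern := TBern.main
  have hMeas : TaskMeas := TMeas.main
  have hMeasG : TaskMeasG := TMeasG.main hMeas
  have hBranch : TaskBranch := TBranch.main
  have hZip : TaskZip := TZip.main
  have hBin : TaskBin := TBin.main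
  have hAll : TaskAll := TAll.main
  have hRec : TaskRec := TRec.main hBranch hBin hMeas hBern hBtRange
  have hHn : TaskHn := THn.main hRec hBMono hBern
  have hHdec : TaskHdec := THdec.main
  have hHinf : TaskHinf := THinf.main hHn hHdec hMeas hBern
  have hGpos : TaskGpos := TGpos.main hHinf hBranch hAll hMeas hBern hBMono
  have hMany : TaskMany := TMany.main hBranch
  have hFort : TaskFort := TFort.main
  have hFortOf : TaskFortOf := TFortOf.main hHdec
  have hRay : TaskRay := TRayB.main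
  have hEngA : TaskEngA := TEngA.main hMany hGpos hMeasG hFort hFortOf hRay hZip hBern
  have hPc : TaskPc := TPc.main TCoup.main
  have hInt : TaskInt := TInt.main
  have hCritA : TaskCritA := TCritA.main hInt hBtRange
  exact assemblyC (assemblyA hCritA hEngA hPc)

end Pool.Agent.Results.MP_12274d_pr.LowerBoundOrder
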